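import Mathlib
import Pool.Agent.helper68.AM.Spec
import Pool.Agent.helper68.AM.Tree

/-!
Project AM, module FIN: growing triples, from the sandwich, the quadratic coefficient, the trivial
bound and the block bound.
-/

set_option autoImplicit false

namespace AM

open Pool.Agent.helper72.Sq Finset

lemma FIN_bdd {P : Tri} (hG : Gr P) (α X : ℝ) :
    ∃ K : ℝ, 0 ≤ K ∧ ∀ r : ℝ, 0 ≤ r → r ≤ X → |Ht P r - α * r ^ 2| ≤ K := by
  have l1 : 0 < len P.1 := len_pos hG.x2
  have l2 : 0 < len P.2.1 := len_pos hG.y2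
  refine ⟨H P X + |X| / (2 * len P.1) + |X| / (2 * len P.2.1) + |α| * X ^ 2, ?_, ?_⟩
  · have : 0 ≤ H P X := Nat.cast_nonneg _
    positivity
  intro r h0 h1
  have hX : 0 ≤ X := h0.trans h1
  rw [abs_of_nonneg hX]
  have hH : H P r ≤ H P X := H_mono (fun R => HS_finite hG R) h1
  have hH0 : 0 ≤ H P r := Nat.cast_nonneg _
  have e1 : r / (2 * len P.1) ≤ X / (2 * len P.1) := by gcongr
  have e2 : r / (2 * len P.2.1) ≤ X / (2 * len P.2.1) := by gcongr
  have e3 : |α| * r ^ 2 ≤ |α| * X ^ 2 := by gcongr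
  have p1 : 0 ≤ r / (2 * len P.1) := by positivity
  have p2 : 0 ≤ r / (2 * len P.2.1) := by positivity
  have e4 : |α * r ^ 2| ≤ |α| * X ^ 2 := by
    rw [abs_mul, abs_of_nonneg (sq_nonneg r)]; exact e3
  have e5 := abs_le.mp e4
  unfold Ht
  rw [abs_le]
  constructor <;> linarith [e5.1, e5.2]

/-- one block -/
lemma FIN_block (f : ℕ → ℝ) (R : ℝ) (D j : ℕ) (hR : 0 ≤ R) (Y : ℝ) (hY : 0 ≤ Y)
    (h : ∀ N1 N2 : ℕ, R / 2 ^ (j + 1) ≤ (N1 : ℝ) + 1 → R / 2 ^ (j + 1) < (N1 : ℝ) + 1 →
      (N2 : ℝ) ≤ R / 2 ^ j → |∑ d ∈ Ioc N1 N2, f d| ≤ Y) :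
    |∑ d ∈ Ioc (min D ⌊R / 2 ^ (j + 1)⌋₊) (min D ⌊R / 2 ^ j⌋₊), f d| ≤ Y := by
  rcases le_or_gt D ⌊R / 2 ^ (j + 1)⌋₊ with hD | hD
  · rw [min_eq_left hD]
    have : Ioc D (min D ⌊R / 2 ^ j⌋₊) = ∅ := by
      rw [Finset.Ioc_eq_empty_iff]
      have := min_le_left D ⌊R / 2 ^ j⌋₊
      omega
    rw [this]; simpa using hY
  · rw [min_eq_right hD.le]
    have hlt := Nat.lt_floor_add_one (R / 2 ^ (j + 1))
    apply h _ _ hlt.le hlt
    have h1 : ((min D ⌊R / 2 ^ j⌋₊ : ℕ) : ℝ) ≤ (⌊R / 2 ^ j⌋₊ : ℝ) := by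
      exact_mod_cast min_le_right _ _
    exact h1.trans (Nat.floor_le (by positivity))

/-- telescoping over the dyadic blocks -/
lemma FIN_tele (f : ℕ → ℝ) (a : ℕ → ℕ) (ha : ∀ j, a (j + 1) ≤ a j) (J : ℕ) :
    ∀ n, J ≤ n → ∑ d ∈ Ioc 0 (a J), f d =
      ∑ d ∈ Ioc 0 (a n), f d + ∑ j ∈ Ico J n, ∑ d ∈ Ioc (a (j + 1)) (a j), f d := by
  intro n hn
  induction n, hn using Nat.le_induction with
  | base => simp
  | succ n hn ih =>
    rw [ih, Finset.sum_Ico_succ_top hn]
    have : ∑ d ∈ Ioc 0 (a n), f d = ∑ d ∈ Ioc 0 (a (n + 1)), f d +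
        ∑ d ∈ Ioc (a (n + 1)) (a n), f d := by
      rw [Finset.sum_Ioc_consecutive _ (Nat.zero_le _) (ha n)]
    rw [this]; ring

theorem FIN (hSW : SW_stmt) (hAL : AL_stmt) (hTB : TB_stmt) (hBB : BB_stmt) : FIN_stmt := by
  intro P hG
  refine ⟨fun R => HS_finite hG R, ?_⟩
  obtain ⟨C0, hC0⟩ := hSW P hG
  obtain ⟨α, hα⟩ := hAL P C0 hG hC0
  obtain ⟨C2, hC2, j2, hTB'⟩ := hTB P C0 α hG hC0 hα
  obtain ⟨C1, hC1, j1, hBB'⟩ := hBB P C0 α hG hC0 hα
  set J : ℕ := max (max j1 j2) 1 with hJ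
  have hJ1 : j1 ≤ J := (le_max_left _ _).trans (le_max_left _ _)
  have hJ2 : j2 ≤ J := (le_max_right _ _).trans (le_max_left _ _)
  have hJ3 : 1 ≤ J := le_max_right _ _
  obtain ⟨K0, hK0, hbd⟩ := FIN_bdd hG α (2 ^ J)
  refine ⟨α, ?_, ?_⟩
  · refine ⟨C2 + K0, ?_⟩
    intro r hr
    rcases le_or_gt r (2 ^ J) with h | h
    · have := hbd r (by linarith) h
      have e1 : K0 ≤ K0 * r := le_mul_of_one_le_right hK0 hr
      have e2 : 0 ≤ C2 * r := by positivity
      linarith
    · -- j = log2 r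
      have hfl : ⌊r⌋₊ ≠ 0 := by
        have : 1 ≤ ⌊r⌋₊ := Nat.le_floor (by exact_mod_cast hr)
        omega
      set j := Nat.log 2 ⌊r⌋₊ with hj
      have b1 : (2 : ℝ) ^ j ≤ r := by
        have h1 : 2 ^ j ≤ ⌊r⌋₊ := Nat.pow_log_le_self 2 hfl
        have h2 : ((2 ^ j : ℕ) : ℝ) ≤ (⌊r⌋₊ : ℝ) := by exact_mod_cast h1
        push_cast at h2
        exact h2.trans (Nat.floor_le (by linarith))
      have b2 : r ≤ (2 : ℝ) ^ (j + 1) := by
        have h1 : ⌊r⌋₊ < 2 ^ (j + 1) := Nat.lt_pow_succ_log_self (by norm_num) _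
        have h2 : r < ((2 ^ (j + 1) : ℕ) : ℝ) := by
          rw [← Nat.floor_lt (by linarith)]; exact h1
        push_cast at h2
        exact h2.le
      have b3 : J ≤ j := by
        by_contra hc
        have hc' : j + 1 ≤ J := by omega
        have : (2 : ℝ) ^ (j + 1) ≤ 2 ^ J := pow_le_pow_right₀ (by norm_num) hc'
        linarith
      have b4 := hTB' j (hJ2.trans b3) r b1 b2
      have hj1 : (1 : ℝ) ≤ j := by exact_mod_cast hJ3.trans b3
      have b5 : C2 * r / j ≤ C2 * r := div_le_self (by positivity) hj1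
      have b6 : 0 ≤ K0 * r := by positivity
      linarith
  · intro B
    set T : ℝ := ∑' n : ℕ, (n : ℝ) ^ (-(6 / 5) : ℝ) with hT
    have hsum : Summable (fun n : ℕ => (n : ℝ) ^ (-(6 / 5) : ℝ)) :=
      Real.summable_nat_rpow.mpr (by norm_num)
    refine ⟨K0 * |B| + (C1 * T + 32 * C2), ?_⟩
    intro R hR D hD
    have hR0 : 0 < R := by linarith
    set g : ℝ → ℝ := fun r => Ht P r - α * r ^ 2 with hg
    set f : ℕ → ℝ := fun d => mu d * g (R / d) with hf
    have hmu : ∀ d : ℕ, |mu d| ≤ 1 := by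
      intro d
      unfold mu
      have := ArithmeticFunction.abs_moebius_le_one (n := d)
      exact_mod_cast this
    have hfg : ∀ d, |f d| ≤ |g (R / d)| := by
      intro d
      simp only [hf]
      rw [abs_mul]
      exact mul_le_of_le_one_left (abs_nonneg _) (hmu d)
    have hfl : ⌊R⌋₊ ≠ 0 := by
      have : 1 ≤ ⌊R⌋₊ := Nat.le_floor (by exact_mod_cast hR)
      omega
    set m := Nat.log 2 ⌊R⌋₊ with hm
    have b1 : (2 : ℝ) ^ m ≤ R := by
      have h1 : 2 ^ m ≤ ⌊R⌋₊ := Nat.pow_log_le_self 2 hfl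
      have h2 : ((2 ^ m : ℕ) : ℝ) ≤ (⌊R⌋₊ : ℝ) := by exact_mod_cast h1
      push_cast at h2
      exact h2.trans (Nat.floor_le (by linarith))
    have b2 : R < (2 : ℝ) ^ (m + 1) := by
      have h1 : ⌊R⌋₊ < 2 ^ (m + 1) := Nat.lt_pow_succ_log_self (by norm_num) _
      have h2 : R < ((2 ^ (m + 1) : ℕ) : ℝ) := by
        rw [← Nat.floor_lt (by linarith)]; exact h1
      push_cast at h2
      exact h2
    set n := max (m + 1) J with hn
    have hnm : m + 1 ≤ n := le_max_left _ _
    have hnJ : J ≤ n := le_max_right _ _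
    set a : ℕ → ℕ := fun j => min D ⌊R / 2 ^ j⌋₊ with ha
    have hanti : ∀ j, a (j + 1) ≤ a j := by
      intro j
      simp only [ha]
      apply min_le_min le_rfl
      apply Nat.floor_le_floor
      apply div_le_div_of_nonneg_left hR0.le (by positivity)
      exact pow_le_pow_right₀ (by norm_num) (by omega)
    have han : a n = 0 := by
      simp only [ha]
      have : ⌊R / 2 ^ n⌋₊ = 0 := by
        rw [Nat.floor_eq_zero, div_lt_one (by positivity)]
        exact b2.trans_le (pow_le_pow_right₀ (by norm_num) hnm)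
      rw [this]; simp
    have hIcc : Icc 1 D = Ioc 0 D := by ext x; simp [Nat.succ_le_iff]
    have hsplit : ∑ d ∈ Icc 1 D, f d = ∑ d ∈ Ioc 0 (a J), f d + ∑ d ∈ Ioc (a J) D, f d := by
      rw [hIcc, Finset.sum_Ioc_consecutive _ (Nat.zero_le _) (min_le_left _ _)]
    have htele := FIN_tele f a hanti J n hnJ
    rw [han] at htele
    -- last part
    have hlast : |∑ d ∈ Ioc (a J) D, f d| ≤ K0 * |B| * R := by
      have c1 : ∀ d ∈ Ioc (a J) D, |f d| ≤ K0 := by
        intro d hd
        rw [Finset.mem_Ioc] at hd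
        refine (hfg d).trans ?_
        have hd1 : ⌊R / 2 ^ J⌋₊ < d := by
          by_contra hc
          have : d ≤ a J := le_min hd.2 (by omega)
          omega
        have hdpos : (0 : ℝ) < d := by
          have : 0 < d := by omega
          exact_mod_cast this
        apply hbd
        · positivity
        · rw [Nat.floor_lt (by positivity), div_lt_iff₀ (by positivity)] at hd1
          rw [div_le_iff₀ hdpos]
          linarith
      calc |∑ d ∈ Ioc (a J) D, f d| ≤ ∑ d ∈ Ioc (a J) D, |f d| := Finset.abs_sum_le_sum_abs _ _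
        _ ≤ ∑ d ∈ Ioc (a J) D, K0 := Finset.sum_le_sum c1
        _ = (D - a J : ℕ) * K0 := by rw [Finset.sum_const, Nat.card_Ioc, nsmul_eq_mul]
        _ ≤ D * K0 := by
            apply mul_le_mul_of_nonneg_right _ hK0
            exact_mod_cast Nat.sub_le _ _
        _ ≤ (|B| * R) * K0 := by
            apply mul_le_mul_of_nonneg_right _ hK0
            exact hD.trans (mul_le_mul_of_nonneg_right (le_abs_self B) hR0.le)
        _ = K0 * |B| * R := by ring
    -- blocks
    have hmpos : (0 : ℝ) < (m : ℝ) + 1 := by positivity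
    have hblock : ∀ j ∈ Ico J n, |∑ d ∈ Ioc (a (j + 1)) (a j), f d| ≤
        (C1 * (j : ℝ) ^ (-(6 / 5) : ℝ)) * R +
          (if j < m + 1 then 32 * C2 / ((m : ℝ) + 1) * R else 0) := by
      intro j hj
      rw [Finset.mem_Ico] at hj
      have hjJ := hj.1
      have hj0 : (1 : ℝ) ≤ j := by exact_mod_cast hJ3.trans hjJ
      have hrp : 0 ≤ (j : ℝ) ^ (-(6 / 5) : ℝ) := Real.rpow_nonneg (by linarith) _
      by_cases hjm : j < m + 1
      swap
      · -- empty block
        have e1 : a j = 0 := by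
          simp only [ha]
          have : ⌊R / 2 ^ j⌋₊ = 0 := by
            rw [Nat.floor_eq_zero, div_lt_one (by positivity)]
            exact b2.trans_le (pow_le_pow_right₀ (by norm_num) (by omega))
          rw [this]; simp
        have e2 : a (j + 1) = 0 := by have := hanti j; omega
        rw [e1, e2, if_neg hjm]
        simp only [Finset.Ioc_self, Finset.sum_empty, abs_zero, add_zero]
        positivity
      rw [if_pos hjm]
      apply FIN_block f R D j hR0.le
      · positivity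
      intro N1 N2 hN1 hN1' hN2
      rcases le_or_gt (16 * j) m with h16 | h16
      · -- BB
        have e1 : (2 : ℝ) ^ (16 * j) ≤ R := (pow_le_pow_right₀ (by norm_num) h16).trans b1
        have := hBB' j (hJ1.trans hjJ) R N1 N2 e1 hN1 hN2
        have e2 : 0 ≤ 32 * C2 / ((m : ℝ) + 1) * R := by positivity
        calc |∑ d ∈ Ioc N1 N2, f d| ≤ C1 * R * (j : ℝ) ^ (-(6 / 5) : ℝ) := this
          _ ≤ _ := by linarith
      · -- TB
        have c1 : ∀ d ∈ Ioc N1 N2, |f d| ≤ C2 * 2 ^ (j + 1) / j := by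
          intro d hd
          rw [Finset.mem_Ioc] at hd
          have hdpos : (0 : ℝ) < d := by
            have : 0 < d := by omega
            exact_mod_cast this
          have hd1 : R / 2 ^ (j + 1) ≤ d := by
            have : (N1 : ℝ) + 1 ≤ d := by exact_mod_cast hd.1
            linarith
          have hd2 : (d : ℝ) ≤ R / 2 ^ j := by
            have : (d : ℝ) ≤ N2 := by exact_mod_cast hd.2
            linarith
          have r1 : (2 : ℝ) ^ j ≤ R / d := by
            rw [le_div_iff₀ hdpos]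
            rw [le_div_iff₀ (by positivity)] at hd2
            linarith
          have r2 : R / d ≤ (2 : ℝ) ^ (j + 1) := by
            rw [div_le_iff₀ hdpos]
            rw [div_le_iff₀ (by positivity)] at hd1
            linarith
          refine (hfg d).trans ((hTB' j (hJ2.trans hjJ) _ r1 r2).trans ?_)
          gcongr
        have c2 : ((N2 - N1 : ℕ) : ℝ) ≤ R / 2 ^ j := by
          refine le_trans ?_ hN2
          exact_mod_cast Nat.sub_le _ _
        have c3 : 1 / (j : ℝ) ≤ 16 / ((m : ℝ) + 1) := by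
          rw [div_le_div_iff₀ (by linarith) hmpos]
          have : m + 1 ≤ 16 * j := by omega
          have : ((m : ℝ) + 1) ≤ 16 * j := by exact_mod_cast this
          linarith
        calc |∑ d ∈ Ioc N1 N2, f d| ≤ ∑ d ∈ Ioc N1 N2, |f d| := Finset.abs_sum_le_sum_abs _ _
          _ ≤ ∑ d ∈ Ioc N1 N2, C2 * 2 ^ (j + 1) / j := Finset.sum_le_sum c1
          _ = (N2 - N1 : ℕ) * (C2 * 2 ^ (j + 1) / j) := by
              rw [Finset.sum_const, Nat.card_Ioc, nsmul_eq_mul]
          _ ≤ R / 2 ^ j * (C2 * 2 ^ (j + 1) / j) := by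
              apply mul_le_mul_of_nonneg_right c2
              positivity
          _ = 2 * C2 * R * (1 / j) := by
              rw [pow_succ]; field_simp
          _ ≤ 2 * C2 * R * (16 / ((m : ℝ) + 1)) := by
              apply mul_le_mul_of_nonneg_left c3; positivity
          _ = 32 * C2 / ((m : ℝ) + 1) * R := by ring
          _ ≤ _ := by
              have : 0 ≤ C1 * (j : ℝ) ^ (-(6 / 5) : ℝ) * R := by positivity
              linarith
    have hS1 : ∑ j ∈ Ico J n, (C1 * (j : ℝ) ^ (-(6 / 5) : ℝ)) * R ≤ C1 * T * R := by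
      rw [← Finset.sum_mul, ← Finset.mul_sum]
      apply mul_le_mul_of_nonneg_right _ hR0.le
      apply mul_le_mul_of_nonneg_left _ hC1.le
      exact hsum.sum_le_tsum _ (fun i _ => Real.rpow_nonneg (Nat.cast_nonneg i) _)
    have hS2 : ∑ j ∈ Ico J n, (if j < m + 1 then 32 * C2 / ((m : ℝ) + 1) * R else 0) ≤
        32 * C2 * R := by
      have e0 : 0 ≤ 32 * C2 / ((m : ℝ) + 1) * R := by positivity
      rw [← Finset.sum_filter]
      calc ∑ j ∈ (Ico J n).filter (fun j => j < m + 1), 32 * C2 / ((m : ℝ) + 1) * R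
          = (((Ico J n).filter (fun j => j < m + 1)).card : ℝ) * (32 * C2 / ((m : ℝ) + 1) * R) := by
            rw [Finset.sum_const, nsmul_eq_mul]
        _ ≤ ((m : ℝ) + 1) * (32 * C2 / ((m : ℝ) + 1) * R) := by
            apply mul_le_mul_of_nonneg_right _ e0
            have : ((Ico J n).filter (fun j => j < m + 1)).card ≤ m + 1 := by
              calc ((Ico J n).filter (fun j => j < m + 1)).card ≤ (range (m + 1)).card := by
                    apply Finset.card_le_card
                    intro x hx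
                    rw [Finset.mem_filter] at hx
                    exact Finset.mem_range.mpr hx.2
                _ = m + 1 := Finset.card_range _
            exact_mod_cast this
        _ = 32 * C2 * R := by field_simp
    have hblocks : |∑ j ∈ Ico J n, ∑ d ∈ Ioc (a (j + 1)) (a j), f d| ≤
        (C1 * T + 32 * C2) * R := by
      calc |∑ j ∈ Ico J n, ∑ d ∈ Ioc (a (j + 1)) (a j), f d|
          ≤ ∑ j ∈ Ico J n, |∑ d ∈ Ioc (a (j + 1)) (a j), f d| := Finset.abs_sum_le_sum_abs _ _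
        _ ≤ ∑ j ∈ Ico J n, ((C1 * (j : ℝ) ^ (-(6 / 5) : ℝ)) * R +
          (if j < m + 1 then 32 * C2 / ((m : ℝ) + 1) * R else 0)) := Finset.sum_le_sum hblock
        _ = ∑ j ∈ Ico J n, (C1 * (j : ℝ) ^ (-(6 / 5) : ℝ)) * R +
          ∑ j ∈ Ico J n, (if j < m + 1 then 32 * C2 / ((m : ℝ) + 1) * R else 0) :=
            Finset.sum_add_distrib
        _ ≤ C1 * T * R + 32 * C2 * R := add_le_add hS1 hS2
        _ = _ := by ring
    have hfin : |∑ d ∈ Icc 1 D, f d| ≤ (K0 * |B| + (C1 * T + 32 * C2)) * R := by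
      rw [hsplit, htele]
      simp only [Finset.Ioc_self, Finset.sum_empty, zero_add]
      calc |∑ j ∈ Ico J n, ∑ d ∈ Ioc (a (j + 1)) (a j), f d + ∑ d ∈ Ioc (a J) D, f d|
          ≤ |∑ j ∈ Ico J n, ∑ d ∈ Ioc (a (j + 1)) (a j), f d| + |∑ d ∈ Ioc (a J) D, f d| :=
            abs_add_le _ _
        _ ≤ (C1 * T + 32 * C2) * R + K0 * |B| * R := add_le_add hblocks hlast
        _ = _ := by ring
    exact hfin

end AM
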