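import Mathlib
import Pool.Agent.helper68.AM.Spec

/-!
Project AM, module FS: truncated Fourier series of the sawtooth.
-/

set_option autoImplicit false

namespace AM

open Finset

/-- the error term on `(0,1)` -/
noncomputable def FS_g (H : ℕ) (u : ℝ) : ℝ :=
  u - 1 / 2 + ∑ h ∈ Icc 1 H, Real.sin (2 * Real.pi * h * u) / (Real.pi * h)

lemma FS_dir (H : ℕ) (u : ℝ) :
    Real.sin (Real.pi * u) * (1 + ∑ h ∈ Icc 1 H, 2 * Real.cos (2 * Real.pi * h * u)) =
      Real.sin ((2 * H + 1) * (Real.pi * u)) := by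
  induction H with
  | zero => simp
  | succ n ih =>
    rw [Finset.sum_Icc_succ_top (by omega), ← add_assoc, mul_add, ih]
    have e1 : Real.sin ((2 * ((n + 1 : ℕ) : ℝ) + 1) * (Real.pi * u)) =
        Real.sin (2 * Real.pi * ((n + 1 : ℕ) : ℝ) * u) * Real.cos (Real.pi * u) +
        Real.cos (2 * Real.pi * ((n + 1 : ℕ) : ℝ) * u) * Real.sin (Real.pi * u) := by
      rw [← Real.sin_add]; congr 1; ring
    have e2 : Real.sin ((2 * (n : ℝ) + 1) * (Real.pi * u)) =
        Real.sin (2 * Real.pi * ((n + 1 : ℕ) : ℝ) * u) * Real.cos (Real.pi * u) -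
        Real.cos (2 * Real.pi * ((n + 1 : ℕ) : ℝ) * u) * Real.sin (Real.pi * u) := by
      rw [← Real.sin_sub]; congr 1; push_cast; ring
    rw [e1, e2]; ring

lemma FS_hasDeriv (H : ℕ) (u : ℝ) :
    HasDerivAt (FS_g H) (1 + ∑ h ∈ Icc 1 H, 2 * Real.cos (2 * Real.pi * h * u)) u := by
  have h1 : HasDerivAt (fun u : ℝ => u - 1 / 2) 1 u := (hasDerivAt_id u).sub_const _
  have h2 : HasDerivAt (fun u : ℝ => ∑ h ∈ Icc 1 H, Real.sin (2 * Real.pi * h * u) / (Real.pi * h))
      (∑ h ∈ Icc 1 H, 2 * Real.cos (2 * Real.pi * h * u)) u := by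
    apply HasDerivAt.fun_sum
    intro h hh
    have hh1 : 1 ≤ h := (Finset.mem_Icc.mp hh).1
    have hh2 : (h : ℝ) ≠ 0 := by
      have : (0 : ℝ) < h := by exact_mod_cast hh1
      exact this.ne'
    have h3 : HasDerivAt (fun u : ℝ => 2 * Real.pi * h * u) (2 * Real.pi * h) u := by
      simpa using (hasDerivAt_id u).const_mul (2 * Real.pi * (h : ℝ))
    have h4 := (h3.sin).div_const (Real.pi * h)
    refine h4.congr_deriv ?_
    field_simp
  exact h1.add h2

lemma FS_half (H : ℕ) : FS_g H (1 / 2) = 0 := by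
  unfold FS_g
  rw [sub_self, zero_add]
  apply Finset.sum_eq_zero
  intro h _
  rw [show 2 * Real.pi * (h : ℝ) * (1 / 2) = h * Real.pi by ring, Real.sin_nat_mul_pi, zero_div]

/-- the main bound on `(0, 1/2]` -/
lemma FS_main (H : ℕ) (t : ℝ) (h0 : 0 < t) (h1 : t ≤ 1 / 2) :
    |FS_g H t| ≤ 2 / ((2 * H + 1) * Real.pi * Real.sin (Real.pi * t)) := by
  set N : ℝ := 2 * H + 1 with hN
  have hNpos : 0 < N := by positivity
  have hpi := Real.pi_pos
  have hsin : ∀ u ∈ Set.Icc t (1 / 2 : ℝ), 0 < Real.sin (Real.pi * u) := by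
    intro u hu
    apply Real.sin_pos_of_pos_of_lt_pi
    · exact mul_pos hpi (lt_of_lt_of_le h0 hu.1)
    · nlinarith [hu.2]
  have hcos : ∀ u ∈ Set.Icc t (1 / 2 : ℝ), 0 ≤ Real.cos (Real.pi * u) := by
    intro u hu
    apply Real.cos_nonneg_of_neg_pi_div_two_le_of_le
    · nlinarith [hu.1]
    · nlinarith [hu.2]
  -- K
  set K : ℝ → ℝ := fun u => 1 / (N * Real.pi * Real.sin (Real.pi * u)) with hK
  set G : ℝ → ℝ := fun u => FS_g H u + Real.cos (N * (Real.pi * u)) * K u with hG
  have dlin : ∀ u : ℝ, HasDerivAt (fun u : ℝ => Real.pi * u) Real.pi u := by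
    intro u; simpa using (hasDerivAt_id u).const_mul Real.pi
  have dK : ∀ u ∈ Set.Icc t (1 / 2 : ℝ),
      HasDerivAt K (-(Real.cos (Real.pi * u) / (N * Real.sin (Real.pi * u) ^ 2))) u := by
    intro u hu
    have hs := hsin u hu
    have e1 : HasDerivAt (fun u : ℝ => N * Real.pi * Real.sin (Real.pi * u))
        (N * Real.pi * (Real.cos (Real.pi * u) * Real.pi)) u := ((dlin u).sin).const_mul _
    have e2 := e1.inv (by positivity)
    have e3 : K = fun u => (N * Real.pi * Real.sin (Real.pi * u))⁻¹ := by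
      funext u; simp only [hK, one_div]
    rw [e3]
    refine e2.congr_deriv ?_
    field_simp
  have dG : ∀ u ∈ Set.Icc t (1 / 2 : ℝ), HasDerivAt G
      (Real.cos (N * (Real.pi * u)) * (-(Real.cos (Real.pi * u) / (N * Real.sin (Real.pi * u) ^ 2))))
      u := by
    intro u hu
    have hs := hsin u hu
    have e1 : HasDerivAt (fun u : ℝ => N * (Real.pi * u)) (N * Real.pi) u := (dlin u).const_mul N
    have e2 := (FS_hasDeriv H u).add ((e1.cos).mul (dK u hu))
    refine e2.congr_deriv ?_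
    have e3 := FS_dir H u
    have e4 : (1 + ∑ h ∈ Icc 1 H, 2 * Real.cos (2 * Real.pi * h * u)) =
        Real.sin (N * (Real.pi * u)) / Real.sin (Real.pi * u) := by
      rw [eq_div_iff hs.ne', ← e3]; ring
    rw [e4]
    simp only [hK]
    field_simp
    ring
  have hKpos : ∀ u ∈ Set.Icc t (1 / 2 : ℝ), 0 < K u := by
    intro u hu
    have hs := hsin u hu
    simp only [hK]; positivity
  have hG12 : G (1 / 2) = 0 := by
    simp only [hG]
    rw [FS_half, zero_add]
    have : Real.cos (N * (Real.pi * (1 / 2))) = 0 := by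
      rw [Real.cos_eq_zero_iff]
      refine ⟨(H : ℤ), ?_⟩
      rw [hN]; push_cast; ring
    rw [this, zero_mul]
  have m12 : (1 / 2 : ℝ) ∈ Set.Icc t (1 / 2 : ℝ) := ⟨h1, le_rfl⟩
  have mt : t ∈ Set.Icc t (1 / 2 : ℝ) := ⟨le_rfl, h1⟩
  have hmono : MonotoneOn (fun u => G u - K u) (Set.Icc t (1 / 2 : ℝ)) := by
    apply monotoneOn_of_deriv_nonneg (convex_Icc _ _)
    · intro u hu
      exact (((dG u hu).sub (dK u hu)).continuousAt).continuousWithinAt
    · intro u hu
      rw [interior_Icc] at hu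
      exact (((dG u (Set.Ioo_subset_Icc_self hu)).sub
        (dK u (Set.Ioo_subset_Icc_self hu))).differentiableAt).differentiableWithinAt
    · intro u hu
      rw [interior_Icc] at hu
      have hu' := Set.Ioo_subset_Icc_self hu
      have e := ((dG u hu').sub (dK u hu')).deriv
      have e' : deriv (fun u => G u - K u) u = _ := e
      rw [e']
      have hs := hsin u hu'
      have hc := hcos u hu'
      have hq : 0 ≤ Real.cos (Real.pi * u) / (N * Real.sin (Real.pi * u) ^ 2) := by positivity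
      nlinarith [Real.cos_le_one (N * (Real.pi * u))]
  have hanti : AntitoneOn (fun u => G u + K u) (Set.Icc t (1 / 2 : ℝ)) := by
    apply antitoneOn_of_deriv_nonpos (convex_Icc _ _)
    · intro u hu
      exact (((dG u hu).add (dK u hu)).continuousAt).continuousWithinAt
    · intro u hu
      rw [interior_Icc] at hu
      exact (((dG u (Set.Ioo_subset_Icc_self hu)).add
        (dK u (Set.Ioo_subset_Icc_self hu))).differentiableAt).differentiableWithinAt
    · intro u hu
      rw [interior_Icc] at hu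
      have hu' := Set.Ioo_subset_Icc_self hu
      have e := ((dG u hu').add (dK u hu')).deriv
      have e' : deriv (fun u => G u + K u) u = _ := e
      rw [e']
      have hs := hsin u hu'
      have hc := hcos u hu'
      have hq : 0 ≤ Real.cos (Real.pi * u) / (N * Real.sin (Real.pi * u) ^ 2) := by positivity
      nlinarith [Real.neg_one_le_cos (N * (Real.pi * u))]
  have i1 := hmono mt m12 h1
  have i2 := hanti mt m12 h1
  simp only [hG12] at i1 i2
  have k1 := hKpos _ m12
  have k2 := hKpos _ mt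
  have hGt : |G t| ≤ K t := by rw [abs_le]; constructor <;> linarith
  have hgt : FS_g H t = G t - Real.cos (N * (Real.pi * t)) * K t := by simp only [hG]; ring
  have hc : |Real.cos (N * (Real.pi * t)) * K t| ≤ K t := by
    rw [abs_mul, abs_of_pos k2]
    exact mul_le_of_le_one_left k2.le (Real.abs_cos_le_one _)
  rw [hgt]
  calc |G t - Real.cos (N * (Real.pi * t)) * K t| ≤ |G t| + |Real.cos (N * (Real.pi * t)) * K t| :=
        abs_sub _ _
    _ ≤ K t + K t := add_le_add hGt hc
    _ = 2 / (N * Real.pi * Real.sin (Real.pi * t)) := by simp only [hK]; ring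

/-- second bound on `(0, 1/2]` -/
lemma FS_b2 (H : ℕ) (t : ℝ) (h0 : 0 < t) (h1 : t ≤ 1 / 2) : |FS_g H t| * (H * t) ≤ 1 := by
  have h := FS_main H t h0 h1
  have hpi := Real.pi_pos
  have hs : 2 * t ≤ Real.sin (Real.pi * t) := by
    have := Real.mul_le_sin (x := Real.pi * t) (by positivity) (by nlinarith)
    calc 2 * t = 2 / Real.pi * (Real.pi * t) := by field_simp
      _ ≤ _ := this
  have hH : (0 : ℝ) ≤ H := Nat.cast_nonneg H
  have h2 : 2 / ((2 * (H : ℝ) + 1) * Real.pi * Real.sin (Real.pi * t)) ≤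
      2 / ((2 * (H : ℝ) + 1) * 1 * (2 * t)) := by
    apply div_le_div_of_nonneg_left (by norm_num) (by positivity)
    apply mul_le_mul _ hs (by positivity) (by positivity)
    apply mul_le_mul_of_nonneg_left _ (by positivity)
    linarith [Real.pi_gt_three]
  calc |FS_g H t| * (H * t) ≤ 2 / ((2 * (H : ℝ) + 1) * 1 * (2 * t)) * (H * t) :=
        mul_le_mul_of_nonneg_right (h.trans h2) (by positivity)
    _ = H / (2 * H + 1) := by field_simp
    _ ≤ 1 := by
        rw [div_le_one (by positivity)]; linarith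

lemma FS_b0 (H : ℕ) (t : ℝ) (h0 : 0 < t) (h1 : t ≤ 1 / 2) : |FS_g H t| ≤ 1 / 2 + 2 * (H * t) := by
  unfold FS_g
  have hpi := Real.pi_pos
  have e1 : |t - 1 / 2| ≤ 1 / 2 := by rw [abs_le]; constructor <;> linarith
  have e2 : |∑ h ∈ Icc 1 H, Real.sin (2 * Real.pi * h * t) / (Real.pi * h)| ≤
      ∑ h ∈ Icc 1 H, 2 * t := by
    refine (Finset.abs_sum_le_sum_abs _ _).trans (Finset.sum_le_sum ?_)
    intro h hh
    have hh1 : (0 : ℝ) < h := by exact_mod_cast (Finset.mem_Icc.mp hh).1
    rw [abs_div, abs_of_pos (show 0 < Real.pi * (h : ℝ) by positivity), div_le_iff₀ (by positivity)]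
    calc |Real.sin (2 * Real.pi * h * t)| ≤ |2 * Real.pi * h * t| := Real.abs_sin_le_abs
      _ = 2 * Real.pi * h * t := abs_of_pos (by positivity)
      _ = 2 * t * (Real.pi * h) := by ring
  calc |t - 1 / 2 + ∑ h ∈ Icc 1 H, Real.sin (2 * Real.pi * h * t) / (Real.pi * h)|
      ≤ |t - 1 / 2| + |∑ h ∈ Icc 1 H, Real.sin (2 * Real.pi * h * t) / (Real.pi * h)| :=
        abs_add_le _ _
    _ ≤ 1 / 2 + ∑ h ∈ Icc 1 H, 2 * t := add_le_add e1 e2
    _ = 1 / 2 + 2 * (H * t) := by simp; ring

/-- both bounds on `(0, 1/2]` -/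
lemma FS_both (H : ℕ) (t : ℝ) (h0 : 0 < t) (h1 : t ≤ 1 / 2) :
    |FS_g H t| ≤ 3 ∧ |FS_g H t| * (H * t) ≤ 3 := by
  have b2 := FS_b2 H t h0 h1
  refine ⟨?_, b2.trans (by norm_num)⟩
  rcases le_or_gt 1 ((H : ℝ) * t) with h | h
  · have := abs_nonneg (FS_g H t)
    nlinarith
  · have := FS_b0 H t h0 h1
    linarith

lemma FS_symm (H : ℕ) (t : ℝ) : FS_g H (1 - t) = -FS_g H t := by
  unfold FS_g
  have e : ∑ h ∈ Icc 1 H, Real.sin (2 * Real.pi * h * (1 - t)) / (Real.pi * h) =
      -∑ h ∈ Icc 1 H, Real.sin (2 * Real.pi * h * t) / (Real.pi * h) := by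
    rw [← Finset.sum_neg_distrib]
    apply Finset.sum_congr rfl
    intro h _
    rw [show 2 * Real.pi * (h : ℝ) * (1 - t) = h * (2 * Real.pi) - 2 * Real.pi * h * t by ring,
      Real.sin_nat_mul_two_pi_sub, neg_div]
  rw [e]; ring

theorem FS : FS_stmt := by
  refine ⟨3, by norm_num, ?_⟩
  intro H t _
  have hper : ps t + ∑ h ∈ Icc 1 H, Real.sin (2 * Real.pi * h * t) / (Real.pi * h) =
      FS_g H (Int.fract t) := by
    unfold FS_g ps
    congr 1
    apply Finset.sum_congr rfl
    intro h _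
    have e : 2 * Real.pi * (h : ℝ) * t = 2 * Real.pi * h * Int.fract t +
        ((h * ⌊t⌋ : ℤ) : ℝ) * (2 * Real.pi) := by
      have := Int.fract_add_floor t
      push_cast
      calc 2 * Real.pi * (h : ℝ) * t = 2 * Real.pi * h * (Int.fract t + ⌊t⌋) := by rw [this]
        _ = _ := by ring
    rw [e, Real.sin_add_int_mul_two_pi]
  have hn : nrm t = min (Int.fract t) (1 - Int.fract t) := abs_sub_round_eq_min t
  rw [hper, hn]
  have f0 := Int.fract_nonneg t
  have f1 := Int.fract_lt_one t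
  set x := Int.fract t with hx
  rcases eq_or_lt_of_le f0 with h0 | h0
  · rw [← h0]
    have : FS_g H 0 = -(1 / 2) := by
      unfold FS_g; simp
    rw [this]
    norm_num
  · rcases le_or_gt x (1 / 2) with h2 | h2
    · rw [min_eq_left (by linarith)]
      exact FS_both H x h0 h2
    · rw [min_eq_right (by linarith)]
      have := FS_both H (1 - x) (by linarith) (by linarith)
      rw [FS_symm, abs_neg] at this
      exact this

end AM
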